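import Mathlib

namespace Pool.Agent.Results.MP_e13ffb_co.Four

open Set

variable {d : ℕ}

/-- a lattice point as a real point -/
def re (y : Fin d → ℤ) : Fin d → ℝ := fun i => y i

/-- integrally convex -/
def IntConvex (S : Set (Fin d → ℤ)) : Prop :=
  ∀ x ∈ convexHull ℝ (re '' S), x ∈ convexHull ℝ (re '' {y ∈ S | ∀ i, |x i - y i| < 1})

/-- k-parallelogram condition -/
def Par (k : ℕ) (A B : Set (Fin d → ℤ)) : Prop :=
  ∀ j, 1 ≤ j → j ≤ k → ∀ a b : Fin j → Fin d → ℤ, (∀ t, a t ∈ A) → (∀ t, b t ∈ B) →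
    ∑ t, a t ≠ ∑ t, b t

/-- P separates A and B in L -/
def Sep (S A B : Set (Fin d → ℤ)) (P L : AffineSubspace ℝ (Fin d → ℝ)) : Prop :=
  ∃ f : (Fin d → ℝ) →ᵃ[ℝ] ℝ, (∀ x ∈ L, x ∈ P ↔ f x = 0) ∧
    (∀ y ∈ S, re y ∈ L → 0 < f (re y) → y ∈ A) ∧ ∀ y ∈ S, re y ∈ L → f (re y) < 0 → y ∈ B

/-- Condition H -/
def CondH (S A B : Set (Fin d → ℤ)) : Prop :=
  ∃ (k : ℕ) (H : ℕ → AffineSubspace ℝ (Fin d → ℝ)), k ≤ d ∧ H d = ⊤ ∧
    (∀ i, k ≤ i → i ≤ d → H i ≠ ⊥ ∧ Module.finrank ℝ (H i).direction = i) ∧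
    ((∀ y ∈ S, re y ∈ H k → y ∈ A) ∨ ∀ y ∈ S, re y ∈ H k → y ∈ B) ∧
    ∀ i, k ≤ i → i < d → H i ≤ H (i + 1) ∧ Sep S A B (H i) (H (i + 1))

lemma box_conv (N : Fin d → ℤ) : IntConvex (Icc 0 N) := by
  intro x hx
  have h1 : x ∈ Icc (0 : Fin d → ℝ) (re N) := by
    refine convexHull_min ?_ (convex_Icc _ _) hx
    rintro _ ⟨y, hy, rfl⟩
    exact ⟨fun i => by simpa [re] using hy.1 i, fun i => by simpa [re] using hy.2 i⟩
  have h2 : x ∈ convexHull ℝ (univ.pi fun i => ({(⌊x i⌋ : ℝ), (⌈x i⌉ : ℝ)} : Set ℝ)) := by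
    refine mem_convexHull_pi fun i _ => ?_
    rw [convexHull_pair, segment_eq_Icc (by exact_mod_cast Int.floor_le_ceil (x i))]
    exact ⟨Int.floor_le _, Int.le_ceil _⟩
  refine convexHull_mono ?_ h2
  intro z hz
  have h3 : ∀ i, ∃ m : ℤ, (m : ℝ) = z i ∧ 0 ≤ m ∧ m ≤ N i ∧ |x i - m| < 1 := by
    intro i
    have a0 : (0 : ℝ) ≤ x i := h1.1 i
    have a1 : x i ≤ (N i : ℝ) := h1.2 i
    have b0 := Int.floor_nonneg.mpr a0
    have b1 := Int.ceil_le.mpr a1
    have b2 := Int.floor_le_ceil (x i)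
    have := Int.floor_le (x i)
    have := Int.lt_floor_add_one (x i)
    have := Int.le_ceil (x i)
    have := Int.ceil_lt_add_one (x i)
    rcases hz i (mem_univ _) with e | e
    · exact ⟨_, e.symm, b0, b2.trans b1, abs_lt.mpr ⟨by linarith, by linarith⟩⟩
    · exact ⟨_, e.symm, b0.trans b2, b1, abs_lt.mpr ⟨by linarith, by linarith⟩⟩
  choose m hm using h3
  exact ⟨m, ⟨⟨fun i => (hm i).2.1, fun i => (hm i).2.2.1⟩, fun i => (hm i).2.2.2⟩,
    funext fun i => (hm i).1⟩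

def w (y : Fin 4 → ℤ) : ℤ := 15 * y 0 + 13 * y 1 + 20 * y 2 + 8 * y 3

def N0 : Fin 4 → ℤ := ![4, 5, 3, 5]
def a1 : Fin 4 → ℤ := ![0, 0, 3, 0]
def a2 : Fin 4 → ℤ := ![1, 1, 0, 4]
def b1 : Fin 4 → ℤ := ![0, 0, 1, 5]
def b2 : Fin 4 → ℤ := ![0, 4, 0, 1]
def b3 : Fin 4 → ℤ := ![4, 0, 0, 0]

def A0 : Set (Fin 4 → ℤ) := {y ∈ Icc 0 N0 | w y < 60 ∨ y = a1 ∨ y = a2}
def B0 : Set (Fin 4 → ℤ) := {y ∈ Icc 0 N0 | ¬ (w y < 60 ∨ y = a1 ∨ y = a2)}

lemma level {y : Fin 4 → ℤ} (h : y ∈ Icc 0 N0) (e : w y = 60) :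
    y = a1 ∨ y = a2 ∨ y = b1 ∨ y = b2 ∨ y = b3 := by
  have h0 := h.1 0
  have h1 := h.1 1
  have h2 := h.1 2
  have h3 := h.1 3
  have k0 := h.2 0
  have k1 := h.2 1
  have k2 := h.2 2
  have k3 := h.2 3
  simp [N0] at h0 h1 h2 h3 k0 k1 k2 k3
  simp only [w] at e
  simp only [funext_iff, Fin.forall_fin_succ, a1, a2, b1, b2, b3]
  simp
  generalize y 1 = s at *
  generalize y 2 = t at *
  interval_cases s <;> interval_cases t <;> omega


lemma par : Par 4 A0 B0 := by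
  intro j h1 h4 a b ha hb e
  have wa : ∀ t, w (a t) ≤ 60 := by
    intro t
    rcases (ha t).2 with h | h | h
    · exact h.le
    · rw [h]; decide
    · rw [h]; decide
  have wb : ∀ t, 60 ≤ w (b t) := fun t => not_lt.mp fun h => (hb t).2 (Or.inl h)
  have ws : ∑ t, w (a t) = ∑ t, w (b t) := by
    have := congrArg w e
    simpa [w, Finset.sum_add_distrib, Finset.mul_sum] using this
  have e1 := (Finset.sum_eq_sum_iff_of_le fun t _ => (wa t).trans (wb t)).mp ws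
  have ea : ∀ t, a t = a1 ∨ a t = a2 := by
    intro t
    have := e1 t (by simp)
    have := wb t
    exact (ha t).2.resolve_left (by omega)
  have eb : ∀ t, b t = b1 ∨ b t = b2 ∨ b t = b3 := by
    intro t
    have := e1 t (by simp)
    have := wa t
    have h := level (hb t).1 (by have := wb t; omega)
    have := (hb t).2
    tauto
  let p : Fin j → ℤ := fun t => if a t = a1 then 1 else 0
  let q : Fin j → ℤ := fun t => if b t = b1 then 1 else 0
  have s1 : ∑ t, (a t 0 + a t 1) = ∑ t, (2 - 2 * p t) := Finset.sum_congr rfl fun t _ => by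
    rcases ea t with h | h <;> simp only [p, h] <;> decide
  have s2 : ∑ t, a t 2 = ∑ t, 3 * p t := Finset.sum_congr rfl fun t _ => by
    rcases ea t with h | h <;> simp only [p, h] <;> decide
  have s3 : ∑ t, (b t 0 + b t 1) = ∑ t, (4 - 4 * q t) := Finset.sum_congr rfl fun t _ => by
    rcases eb t with h | h | h <;> simp only [q, h] <;> decide
  have s4 : ∑ t, b t 2 = ∑ t, q t := Finset.sum_congr rfl fun t _ => by
    rcases eb t with h | h | h <;> simp only [q, h] <;> decide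
  have c0 := congrFun e 0
  have c1 := congrFun e 1
  have c2 := congrFun e 2
  simp only [Finset.sum_apply] at c0 c1 c2
  simp only [Finset.sum_add_distrib, Finset.sum_sub_distrib, ← Finset.mul_sum, Finset.sum_const,
    Finset.card_univ, Fintype.card_fin, nsmul_eq_mul] at s1 s2 s3 s4
  omega

theorem result : ∃ (d : ℕ) (S A B : Set (Fin d → ℤ)), 1 ≤ d ∧ S.Finite ∧ IntConvex S ∧
    A ∪ B = S ∧ Disjoint A B ∧ A.Nonempty ∧ B.Nonempty ∧ Par d A B ∧ ¬ CondH S A B := by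
  have m1 : a1 ∈ A0 := ⟨⟨Pi.le_def.mpr (by decide), Pi.le_def.mpr (by decide)⟩, by simp⟩
  have m2 : a2 ∈ A0 := ⟨⟨Pi.le_def.mpr (by decide), Pi.le_def.mpr (by decide)⟩, by simp⟩
  have n1 : b1 ∈ B0 := ⟨⟨Pi.le_def.mpr (by decide), Pi.le_def.mpr (by decide)⟩, by decide⟩
  have n2 : b2 ∈ B0 := ⟨⟨Pi.le_def.mpr (by decide), Pi.le_def.mpr (by decide)⟩, by decide⟩
  have n3 : b3 ∈ B0 := ⟨⟨Pi.le_def.mpr (by decide), Pi.le_def.mpr (by decide)⟩, by decide⟩
  refine ⟨4, Icc 0 N0, A0, B0, by norm_num, finite_Icc _ _, box_conv _, ?_,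
    disjoint_left.mpr fun y h1 h2 => h2.2 h1.2, ⟨_, m1⟩, ⟨_, n1⟩, par, ?_⟩
  · ext y
    simp only [A0, B0, mem_union, mem_sep_iff]
    tauto
  · rintro ⟨k, H, hk, ht, -, h0, hs⟩
    have key : ∀ j, k + j ≤ 4 → re a1 ∈ H (4 - j) ∧ re a2 ∈ H (4 - j) ∧ re b1 ∈ H (4 - j) ∧
        re b2 ∈ H (4 - j) ∧ re b3 ∈ H (4 - j) := by
      intro j
      induction j with
      | zero => intro _; simp [ht]
      | succ j ih =>
        intro hj
        obtain ⟨i1, i2, i3, i4, i5⟩ := ih (by omega)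
        obtain ⟨-, f, f0, f1, f2⟩ := hs (4 - (j + 1)) (by omega) (by omega)
        rw [show 4 - (j + 1) + 1 = 4 - j by omega] at f0 f1 f2
        have g1 := not_lt.mp fun h => (f2 _ m1.1 i1 h).2 m1.2
        have g2 := not_lt.mp fun h => (f2 _ m2.1 i2 h).2 m2.2
        have g3 := not_lt.mp fun h => n1.2 (f1 _ n1.1 i3 h).2
        have g4 := not_lt.mp fun h => n2.2 (f1 _ n2.1 i4 h).2
        have g5 := not_lt.mp fun h => n3.2 (f1 _ n3.1 i5 h).2
        have rel : re a1 + (4 : ℝ) • re a2 = (3 : ℝ) • re b1 + re b2 + re b3 := by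
          ext i
          fin_cases i <;> simp [re, a1, a2, b1, b2, b3] <;> norm_num
        have rel' := congrArg f.linear rel
        simp only [map_add, map_smul, smul_eq_mul] at rel'
        have dec : ∀ x, f x = f.linear x + f 0 := fun x => congrFun f.decomp x
        rw [f0 _ i1, f0 _ i2, f0 _ i3, f0 _ i4, f0 _ i5]
        have d1 := dec (re a1)
        have d2 := dec (re a2)
        have d3 := dec (re b1)
        have d4 := dec (re b2)
        have d5 := dec (re b3)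
        refine ⟨?_, ?_, ?_, ?_, ?_⟩ <;> linarith
    have := key (4 - k) (by omega)
    rw [show 4 - (4 - k) = k by omega] at this
    rcases h0 with h | h
    · exact n1.2 (h _ n1.1 this.2.2.1).2
    · exact (h _ m1.1 this.1).2 m1.2

end Pool.Agent.Results.MP_e13ffb_co.Four
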